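import Mathlib

/-!
# MP_3f52e1_an: path-independent stabilizability does not give a uniform exponential rate
-/

open Filter Topology Matrix

namespace Pool.Agent.Results.MP_3f52e1_an.ClockMismatch

attribute [local instance] Matrix.normedAddCommGroup

/-- the product `P_n = A_n B_n ⋯ A_1 B_1` (here the sequences are indexed from `0`, so
`prodSeq A B n = A (n-1) * B (n-1) * ⋯ * A 0 * B 0`) -/
def prodSeq {N M : ℕ} (A : ℕ → Matrix (Fin N) (Fin M) ℝ) (B : ℕ → Matrix (Fin M) (Fin N) ℝ) :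
    ℕ → Matrix (Fin N) (Fin N) ℝ
  | 0 => 1
  | n + 1 => A n * B n * prodSeq A B n

/-- path-independent stabilizability; `‖·‖` is the largest absolute value of an entry -/
def PathIndependentlyStabilizable {N M : ℕ} (𝒜 : Set (Matrix (Fin N) (Fin M) ℝ))
    (ℬ : Set (Matrix (Fin M) (Fin N) ℝ)) : Prop :=
  ∃ B : ℕ → Matrix (Fin M) (Fin N) ℝ, (∀ n, B n ∈ ℬ) ∧
    ∀ A : ℕ → Matrix (Fin N) (Fin M) ℝ, (∀ n, A n ∈ 𝒜) →
      Tendsto (fun n => ‖prodSeq A B n‖) atTop (𝓝 0)

/-- there is one sequence `B` in `ℬ` with a uniform geometric rate for all sequences in `𝒜` -/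
def UniformlyExponentiallyStabilizable {N M : ℕ} (𝒜 : Set (Matrix (Fin N) (Fin M) ℝ))
    (ℬ : Set (Matrix (Fin M) (Fin N) ℝ)) : Prop :=
  ∃ B : ℕ → Matrix (Fin M) (Fin N) ℝ, (∀ n, B n ∈ ℬ) ∧
    ∃ C : ℝ, 0 < C ∧ ∃ r : ℝ, 0 < r ∧ r < 1 ∧
      ∀ A : ℕ → Matrix (Fin N) (Fin M) ℝ, (∀ n, A n ∈ 𝒜) →
        ∀ n : ℕ, 1 ≤ n → ‖prodSeq A B n‖ ≤ C * r ^ n

/-- the two `5 × 10` matrices -/
noncomputable def AA : Bool → Matrix (Fin 5) (Fin 10) ℝ
  | false => !![1, 0, 0, 0, 0, 1/2, 0, 0, 0, 1/2;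
                0, 2, 0, 0, 0, 0, 0, 0, 0, 0;
                0, 2, 2, 0, 0, 0, 0, 0, 0, 0;
                0, 0, 0, 1, 0, 0, 1, 0, 0, 0;
                0, 0, 0, -1, 1, 0, 2, 1, 0, 0]
  | true =>  !![1, 0, 0, 0, 0, 0, 0, 0, 0, 0;
                0, 2, 0, 0, 0, 1, 0, 0, 0, 1;
                0, 2, 2, 0, 0, 0, 0, 0, 0, 0;
                0, 0, 0, 1, 0, 0, 1, 0, 0, 0;
                0, 0, 0, -1, 1, 0, 2, 1, 0, 0]

/-- the two `10 × 5` matrices -/
def BB : Bool → Matrix (Fin 10) (Fin 5) ℝ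
  | false => !![1, 0, 0, 0, 0; 0, 1, 0, 0, 0; 0, 0, 1, 0, 0; 0, 0, 0, 1, 0; 0, 0, 0, 0, 1;
                0, 0, 0, 0, 0; 0, 0, 0, 0, 0; 0, 0, 0, 0, 0; 0, 0, 0, 0, 0; 0, 0, 0, 0, 0]
  | true =>  !![0, 0, 0, 0, 0; 0, 0, 0, 0, 0; 0, 0, 0, 0, 0; 0, 0, 0, 0, 0; 0, 0, 0, 0, 0;
                1, 0, 0, 0, 0; 0, 1, 0, 0, 0; 0, 0, 1, 0, 0; 0, 0, 0, 1, 0; 0, 0, 0, 0, 1]

/-- the products `A B` -/
noncomputable def Mx (c b : Bool) : Matrix (Fin 5) (Fin 5) ℝ := AA c * BB b

theorem Mx_tau (c : Bool) (s p q u v : ℝ) :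
    Mx c false *ᵥ ![s, p, q, u, v] = ![s, 2 * p, 2 * p + 2 * q, u, v - u] := by
  cases c <;> ext i <;> fin_cases i <;>
    simp [Mx, AA, BB, Matrix.mulVec, dotProduct, Matrix.mul_apply, Fin.sum_univ_succ] <;> ring

theorem Mx_beta_false (s p q u v : ℝ) :
    Mx false true *ᵥ ![s, p, q, u, v] = ![(s + v) / 2, 0, 0, p, 2 * p + q] := by
  ext i; fin_cases i <;>
    simp [Mx, AA, BB, Matrix.mulVec, dotProduct, Matrix.mul_apply, Fin.sum_univ_succ] <;> ring

theorem Mx_beta_true (s p q u v : ℝ) :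
    Mx true true *ᵥ ![s, p, q, u, v] = ![0, s + v, 0, p, 2 * p + q] := by
  ext i; fin_cases i <;>
    simp [Mx, AA, BB, Matrix.mulVec, dotProduct, Matrix.mul_apply, Fin.sum_univ_succ]

/-! ### the lower bound -/

/-- `w` can be reached from `v` along the letters of the list (for suitable options) -/
def Reach : List Bool → (Fin 5 → ℝ) → (Fin 5 → ℝ) → Prop
  | [], v, w => v = w
  | b :: x, v, w => ∃ c : Bool, Reach x (Mx c b *ᵥ v) w

theorem Reach.smul (t : ℝ) : ∀ (x : List Bool) (v w : Fin 5 → ℝ), Reach x v w →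
    Reach x (t • v) (t • w)
  | [], v, w, h => by
    have h' : v = w := h
    show t • v = t • w
    rw [h']
  | b :: x, v, w, ⟨c, h⟩ => by
    refine ⟨c, ?_⟩
    rw [Matrix.mulVec_smul]
    exact Reach.smul t x _ _ h

theorem Reach.append : ∀ (x y : List Bool) (v w : Fin 5 → ℝ), Reach (x ++ y) v w →
    ∃ u, Reach x v u ∧ Reach y u w
  | [], y, v, w, h => ⟨v, rfl, h⟩
  | b :: x, y, v, w, ⟨c, h⟩ => by
    obtain ⟨u, h1, h2⟩ := Reach.append x y _ _ h
    exact ⟨u, ⟨c, h1⟩, h2⟩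

theorem reach_tau (y : List Bool) (w : Fin 5 → ℝ) : ∀ (l : ℕ) (s p q u v : ℝ),
    Reach y ![s, 2 ^ l * p, 2 ^ l * (q + l * p), u, v - l * u] w →
      Reach (List.replicate l false ++ y) ![s, p, q, u, v] w
  | 0, s, p, q, u, v, h => by simpa using h
  | l + 1, s, p, q, u, v, h => by
    refine ⟨false, ?_⟩
    show Reach (List.replicate l false ++ y) _ w
    rw [Mx_tau]
    apply reach_tau
    have e1 : (2 : ℝ) ^ l * (2 * p) = 2 ^ (l + 1) * p := by ring
    have e2 : (2 : ℝ) ^ l * (2 * p + 2 * q + l * (2 * p)) = 2 ^ (l + 1) * (q + ((l + 1 : ℕ) : ℝ) * p) := by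
      push_cast; ring
    have e3 : v - u - l * u = v - ((l + 1 : ℕ) : ℝ) * u := by push_cast; ring
    rw [e1, e2, e3]
    exact h

theorem decomp : ∀ y : List Bool, ∃ (l : ℕ) (z : List Bool), y = List.replicate l false ++ z ∧
    (z = [] ∨ ∃ z', z = true :: z')
  | [] => ⟨0, [], by simp, Or.inl rfl⟩
  | true :: y => ⟨0, true :: y, by simp, Or.inr ⟨y, rfl⟩⟩
  | false :: y => by
    obtain ⟨l, z, h1, h2⟩ := decomp y
    exact ⟨l + 1, z, by rw [h1]; rfl, h2⟩

/-- the first unit vector -/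
def e1 : Fin 5 → ℝ := ![1, 0, 0, 0, 0]

theorem main_lower : ∀ (n l : ℕ) (y : List Bool), y.length ≤ n →
    (y = [] ∨ ∃ y', y = true :: y') →
    ∃ w, Reach (true :: (List.replicate l false ++ y)) e1 w ∧ ∃ i, (2 : ℝ) ^ l ≤ |w i| := by
  intro n
  induction n with
  | zero =>
    intro l y hy _
    have hy' : y = [] := List.length_eq_zero_iff.1 (Nat.le_zero.1 hy)
    subst hy'
    refine ⟨![0, 2 ^ l * 1, 2 ^ l * (0 + l * 1), 0, 0 - l * 0], ⟨true, ?_⟩, 1, ?_⟩
    · show Reach _ (Mx true true *ᵥ ![1, 0, 0, 0, 0]) _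
      rw [Mx_beta_true]
      norm_num only
      apply reach_tau
      show _ = _
      norm_num
    · simp
  | succ n ih =>
    intro l y hy hy2
    rcases hy2 with rfl | ⟨y', rfl⟩
    · refine ⟨![0, 2 ^ l * 1, 2 ^ l * (0 + l * 1), 0, 0 - l * 0], ⟨true, ?_⟩, 1, ?_⟩
      · show Reach _ (Mx true true *ᵥ ![1, 0, 0, 0, 0]) _
        rw [Mx_beta_true]
        norm_num only
        apply reach_tau
        show _ = _
        norm_num
      · simp
    · obtain ⟨l', z, rfl, hz⟩ := decomp y'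
      have hlen : z.length ≤ n := by
        simp only [List.length_cons, List.length_append, List.length_replicate] at hy
        omega
      rcases Nat.lt_or_ge l l' with hll | hll
      · obtain ⟨w, hw, i, hi⟩ := ih l' z hlen hz
        refine ⟨(1 / 2 : ℝ) • w, ⟨false, ?_⟩, i, ?_⟩
        · show Reach _ (Mx false true *ᵥ ![1, 0, 0, 0, 0]) _
          rw [Mx_beta_false]
          apply reach_tau
          have := Reach.smul (1 / 2) _ _ _ hw
          convert this using 1
          ext j; fin_cases j <;> simp [e1]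
        · rw [Pi.smul_apply, smul_eq_mul, abs_mul, abs_of_pos (by norm_num : (0 : ℝ) < 1 / 2)]
          have h1 : (2 : ℝ) ^ (l + 1) ≤ 2 ^ l' := pow_le_pow_right₀ (by norm_num) hll
          have h2 : (2 : ℝ) ^ (l + 1) = 2 * 2 ^ l := by ring
          linarith
      · -- `l' ≤ l`
        have hpos : (0 : ℝ) < 2 ^ l := by positivity
        have hD : (1 : ℝ) ≤ 2 + l - l' := by
          have : (l' : ℝ) ≤ l := by exact_mod_cast hll
          linarith
        set D : ℝ := 2 ^ l * (2 + l - l') with hDdef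
        have hD' : (2 : ℝ) ^ l ≤ D := by
          rw [hDdef]; nlinarith
        have key : ∀ w, Reach z ![0, 0, 0, 2 ^ l, D] w →
            Reach (true :: (List.replicate l false ++ true :: (List.replicate l' false ++ z)))
              e1 w := by
          intro w hw
          refine ⟨true, ?_⟩
          show Reach _ (Mx true true *ᵥ ![1, 0, 0, 0, 0]) _
          rw [Mx_beta_true]
          apply reach_tau
          refine ⟨false, ?_⟩
          rw [Mx_beta_false]
          apply reach_tau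
          convert hw using 1
          ext j; fin_cases j <;> simp [hDdef] <;> ring
        rcases hz with rfl | ⟨z', rfl⟩
        · refine ⟨![0, 0, 0, 2 ^ l, D], key _ rfl, 3, ?_⟩
          simp
        · obtain ⟨l'', z'', rfl, hz''⟩ := decomp z'
          have hlen2 : z''.length ≤ n := by
            simp only [List.length_cons, List.length_append, List.length_replicate] at hlen
            omega
          obtain ⟨w, hw, i, hi⟩ := ih l'' z'' hlen2 hz''
          refine ⟨D • w, key _ ?_, i, ?_⟩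
          · obtain ⟨c, hc⟩ := hw
            refine ⟨c, ?_⟩
            have := Reach.smul D _ _ _ hc
            convert this using 1
            rw [← Matrix.mulVec_smul]
            cases c
            · rw [Mx_beta_false]
              have : D • e1 = ![D, 0, 0, 0, 0] := by
                ext j; fin_cases j <;> simp [e1]
              rw [this, Mx_beta_false]
              ext j; fin_cases j <;> simp
            · rw [Mx_beta_true]
              have : D • e1 = ![D, 0, 0, 0, 0] := by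
                ext j; fin_cases j <;> simp [e1]
              rw [this, Mx_beta_true]
              ext j; fin_cases j <;> simp
          · rw [Pi.smul_apply, smul_eq_mul, abs_mul, abs_of_pos (hpos.trans_le hD')]
            have h1 : (1 : ℝ) ≤ 2 ^ l'' := one_le_pow₀ (by norm_num)
            have h2 : (1 : ℝ) ≤ |w i| := h1.trans hi
            nlinarith

theorem lower (x : List Bool) : ∃ w, Reach x e1 w ∧ ∃ i, (1 : ℝ) ≤ |w i| := by
  obtain ⟨l, z, rfl, hz⟩ := decomp x
  have key : ∀ w, Reach z e1 w → Reach (List.replicate l false ++ z) e1 w := by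
    intro w hw
    show Reach _ ![1, 0, 0, 0, 0] _
    apply reach_tau
    convert hw using 1
    ext j; fin_cases j <;> simp [e1]
  rcases hz with rfl | ⟨z', rfl⟩
  · exact ⟨e1, key _ rfl, 0, by simp [e1]⟩
  · obtain ⟨l', z'', rfl, hz''⟩ := decomp z'
    obtain ⟨w, hw, i, hi⟩ := main_lower _ l' z'' le_rfl hz''
    exact ⟨w, key _ hw, i, (one_le_pow₀ (by norm_num)).trans hi⟩

/-- the products along a sequence of options and a sequence of letters -/
noncomputable def P (c b : ℕ → Bool) : ℕ → Matrix (Fin 5) (Fin 5) ℝ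
  | 0 => 1
  | n + 1 => Mx (c n) (b n) * P c b n

theorem P_congr (c c' b : ℕ → Bool) : ∀ n : ℕ, (∀ k < n, c k = c' k) → P c b n = P c' b n
  | 0, _ => rfl
  | n + 1, h => by
    show Mx (c n) (b n) * P c b n = Mx (c' n) (b n) * P c' b n
    rw [h n (Nat.lt_succ_self n), P_congr c c' b n fun k hk => h k (hk.trans (Nat.lt_succ_self n))]

theorem reach_P (b : ℕ → Bool) (v : Fin 5 → ℝ) : ∀ (n : ℕ) (w : Fin 5 → ℝ),
    Reach ((List.range n).map b) v w → ∃ c : ℕ → Bool, P c b n *ᵥ v = w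
  | 0, w, h => ⟨fun _ => false, by
      have h' : v = w := by simpa [Reach] using h
      show (1 : Matrix (Fin 5) (Fin 5) ℝ) *ᵥ v = w
      rw [Matrix.one_mulVec, h']⟩
  | n + 1, w, h => by
    rw [List.range_succ, List.map_append] at h
    obtain ⟨u, h1, c0, h2⟩ := Reach.append _ _ _ _ h
    have h2' : Mx c0 (b n) *ᵥ u = w := h2
    obtain ⟨c, hc⟩ := reach_P b v n u h1
    refine ⟨Function.update c n c0, ?_⟩
    show (Mx (Function.update c n c0 n) (b n) * P (Function.update c n c0) b n) *ᵥ v = w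
    rw [Function.update_self, ← Matrix.mulVec_mulVec,
      P_congr (Function.update c n c0) c b n fun k hk => Function.update_of_ne hk.ne _ _, hc, h2']

theorem prodSeq_eq (c b : ℕ → Bool) : ∀ n : ℕ,
    prodSeq (fun k => AA (c k)) (fun k => BB (b k)) n = P c b n
  | 0 => rfl
  | n + 1 => by
    show AA (c n) * BB (b n) * prodSeq _ _ n = Mx (c n) (b n) * P c b n
    rw [prodSeq_eq c b n]; rfl

/-- against every sequence of letters some sequence of options keeps the norm at least `1` -/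
theorem norm_lower (b : ℕ → Bool) (n : ℕ) : ∃ c : ℕ → Bool, 1 ≤ ‖P c b n‖ := by
  obtain ⟨w, hw, i, hi⟩ := lower ((List.range n).map b)
  obtain ⟨c, hc⟩ := reach_P b e1 n w hw
  refine ⟨c, ?_⟩
  have h1 : w i = P c b n i 0 := by
    rw [← hc]
    simp [Matrix.mulVec, dotProduct, Fin.sum_univ_succ, e1]
  rw [h1] at hi
  exact hi.trans (Matrix.norm_entry_le_entrywise_sup_norm (P c b n))

/-! ### the stabilizing sequence -/

/-- the letter sequence: `true` exactly at the perfect squares -/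
def bbar (n : ℕ) : Bool := decide (Nat.sqrt n * Nat.sqrt n = n)

theorem sq_true {n : ℕ} (h : bbar (n + 1) = true) :
    Nat.sqrt (n + 1) = Nat.sqrt n + 1 ∧ n + 1 = (Nat.sqrt n + 1) * (Nat.sqrt n + 1) := by
  have h1 : Nat.sqrt (n + 1) * Nat.sqrt (n + 1) = n + 1 := by simpa [bbar] using h
  have h2 := Nat.sqrt_le n
  have h4 : n < (Nat.sqrt n + 1) * (Nat.sqrt n + 1) := Nat.lt_succ_sqrt n
  have h5 : Nat.sqrt n < Nat.sqrt (n + 1) := by
    by_contra hcon
    have : Nat.sqrt (n + 1) * Nat.sqrt (n + 1) ≤ Nat.sqrt n * Nat.sqrt n :=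
      Nat.mul_self_le_mul_self (not_lt.1 hcon)
    omega
  have h6 : Nat.sqrt (n + 1) ≤ Nat.sqrt n + 1 := by
    by_contra hcon
    have : (Nat.sqrt n + 1 + 1) * (Nat.sqrt n + 1 + 1) ≤ Nat.sqrt (n + 1) * Nat.sqrt (n + 1) :=
      Nat.mul_self_le_mul_self (not_le.1 hcon)
    nlinarith
  have h7 : Nat.sqrt (n + 1) = Nat.sqrt n + 1 := by omega
  exact ⟨h7, by rw [← h7]; exact h1.symm⟩

theorem sq_false {n : ℕ} (h : bbar (n + 1) = false) : Nat.sqrt (n + 1) = Nat.sqrt n := by
  have h1 : ¬ Nat.sqrt (n + 1) * Nat.sqrt (n + 1) = n + 1 := by simpa [bbar] using h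
  have h2 := Nat.sqrt_le n
  have h4 : n < (Nat.sqrt n + 1) * (Nat.sqrt n + 1) := Nat.lt_succ_sqrt n
  have h5 : n + 1 ≠ (Nat.sqrt n + 1) * (Nat.sqrt n + 1) := by
    intro hcon
    apply h1
    rw [hcon, Nat.sqrt_eq]
  symm
  rw [Nat.eq_sqrt]
  omega

/-- the recursion satisfied by the coordinates of a column -/
structure Rec (c : ℕ → Bool) (s p q u v : ℕ → ℝ) : Prop where
  tau : ∀ n, bbar n = false → s (n + 1) = s n ∧ p (n + 1) = 2 * p n ∧
    q (n + 1) = 2 * p n + 2 * q n ∧ u (n + 1) = u n ∧ v (n + 1) = v n - u n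
  beta : ∀ n, bbar n = true → q (n + 1) = 0 ∧ u (n + 1) = p n ∧ v (n + 1) = 2 * p n + q n
  beta0 : ∀ n, bbar n = true → c n = false → s (n + 1) = (s n + v n) / 2 ∧ p (n + 1) = 0
  beta1 : ∀ n, bbar n = true → c n = true → s (n + 1) = 0 ∧ p (n + 1) = s n + v n

section
variable {c : ℕ → Bool} {s p q u v : ℕ → ℝ} (R : Rec c s p q u v)
include R

theorem inv1 : ∀ n : ℕ, q (n + 1) = ((n : ℝ) - (Nat.sqrt n : ℝ) ^ 2) * p (n + 1) := by
  intro n
  induction n with
  | zero =>
    rw [(R.beta 0 (by simp [bbar])).1]; simp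
  | succ n ih =>
    cases hb : bbar (n + 1) with
    | true =>
      obtain ⟨h1, h2⟩ := sq_true hb
      rw [(R.beta _ hb).1]
      have : ((n + 1 : ℕ) : ℝ) - (Nat.sqrt (n + 1) : ℝ) ^ 2 = 0 := by
        rw [h1]
        have : ((n + 1 : ℕ) : ℝ) = ((Nat.sqrt n + 1 : ℕ) : ℝ) * ((Nat.sqrt n + 1 : ℕ) : ℝ) := by
          exact_mod_cast h2
        rw [this]; ring
      rw [this, zero_mul]
    | false =>
      obtain ⟨-, h2, h3, -⟩ := R.tau _ hb
      rw [h2, h3, sq_false hb, ih]
      push_cast; ring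

theorem inv2 : ∀ n : ℕ,
    v (n + 2) = (((Nat.sqrt (n + 1) : ℝ) + 1) ^ 2 - ((n : ℝ) + 2)) * u (n + 2) := by
  intro n
  have sqcase : ∀ n : ℕ, bbar (n + 1) = true →
      v (n + 2) = (((Nat.sqrt (n + 1) : ℝ) + 1) ^ 2 - ((n : ℝ) + 2)) * u (n + 2) := by
    intro n hb
    obtain ⟨h1, h2⟩ := sq_true hb
    obtain ⟨-, h3, h4⟩ := R.beta _ hb
    rw [h3, h4, inv1 R n, h1]
    have : (n : ℝ) + 1 = ((Nat.sqrt n : ℝ) + 1) * ((Nat.sqrt n : ℝ) + 1) := by
      exact_mod_cast h2
    push_cast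
    linear_combination (2 * p (n + 1)) * this
  induction n with
  | zero => exact sqcase 0 (by simp [bbar])
  | succ n ih =>
    cases hb : bbar (n + 1 + 1) with
    | true => exact sqcase (n + 1) hb
    | false =>
      obtain ⟨-, -, -, h2, h3⟩ := R.tau _ hb
      rw [h3, h2, sq_false hb]
      rw [ih]
      push_cast; ring

theorem v_sq {n : ℕ} (hn : 2 ≤ n) (hb : bbar n = true) : v n = 0 := by
  obtain ⟨m, rfl⟩ : ∃ m, n = m + 2 := ⟨n - 2, by omega⟩
  rw [inv2 R m]
  obtain ⟨h1, h2⟩ := sq_true (n := m + 1) hb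
  have : (m : ℝ) + 1 + 1 = ((Nat.sqrt (m + 1) : ℝ) + 1) * ((Nat.sqrt (m + 1) : ℝ) + 1) := by
    exact_mod_cast h2
  have h3 : (((Nat.sqrt (m + 1) : ℝ) + 1) ^ 2 - ((m : ℝ) + 2)) = 0 := by
    linear_combination -this
  rw [h3, zero_mul]

theorem s_bound : ∀ n : ℕ, |s (n + 2)| ≤ 2 * |s 2| * (1 / 2) ^ (Nat.sqrt (n + 1)) := by
  intro n
  induction n with
  | zero =>
    have : 2 * |s 2| * (1 / 2 : ℝ) ^ (Nat.sqrt (0 + 1)) = |s 2| := by
      rw [zero_add, Nat.sqrt_one]; ring
    rw [this]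
  | succ n ih =>
    cases hb : bbar (n + 2) with
    | true =>
      obtain ⟨h1, -⟩ := sq_true (n := n + 1) hb
      have hv := v_sq R (by omega : 2 ≤ n + 2) hb
      have hs : |s (n + 2 + 1)| ≤ |s (n + 2)| / 2 := by
        cases hc : c (n + 2) with
        | false =>
          rw [(R.beta0 _ hb hc).1, hv, add_zero, abs_div, abs_of_pos (by norm_num : (0 : ℝ) < 2)]
        | true =>
          rw [(R.beta1 _ hb hc).1, abs_zero]; positivity
      have e : (1 / 2 : ℝ) ^ (Nat.sqrt (n + 1 + 1)) = (1 / 2) ^ (Nat.sqrt (n + 1)) / 2 := by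
        rw [h1, pow_succ]; ring
      rw [e]
      have : n + 1 + 2 = n + 2 + 1 := by ring
      rw [this]
      calc |s (n + 2 + 1)| ≤ |s (n + 2)| / 2 := hs
        _ ≤ (2 * |s 2| * (1 / 2) ^ (Nat.sqrt (n + 1))) / 2 := by linarith
        _ = _ := by ring
    | false =>
      have h1 := sq_false (n := n + 1) hb
      have : n + 1 + 2 = n + 2 + 1 := by ring
      rw [this, (R.tau _ hb).1, h1]
      exact ih

theorem s_tendsto : Tendsto s atTop (𝓝 0) := by
  have h1 : Tendsto (fun n : ℕ => Nat.sqrt (n + 1)) atTop atTop := by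
    refine tendsto_atTop_atTop.2 fun b => ⟨b * b, fun a ha => Nat.le_sqrt.2 (by omega)⟩
  have h2 : Tendsto (fun n : ℕ => 2 * |s 2| * (1 / 2 : ℝ) ^ (Nat.sqrt (n + 1))) atTop (𝓝 0) := by
    have := (tendsto_pow_atTop_nhds_zero_of_lt_one (r := (1 / 2 : ℝ)) (by norm_num)
      (by norm_num)).comp h1
    simpa using this.const_mul (2 * |s 2|)
  rw [← tendsto_add_atTop_iff_nat 2]
  exact squeeze_zero_norm (fun n => by simpa using s_bound R n) h2

end

/-- a sequence which is reset to `0` at the squares and multiplied by a constant elsewhere -/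
theorem eventually_zero {f : ℕ → ℝ} {κ : ℝ} {m : ℕ}
    (h1 : ∀ n, m ≤ n → bbar n = true → f (n + 1) = 0)
    (h2 : ∀ n, bbar n = false → f (n + 1) = κ * f n) : ∀ n, m * m + 1 ≤ n → f n = 0 := by
  intro n hn
  induction n, hn using Nat.le_induction with
  | base => exact h1 _ (Nat.le_mul_self m) (by simp [bbar, Nat.sqrt_eq])
  | succ n hn ih =>
    cases hb : bbar n with
    | true => exact h1 n (by nlinarith [Nat.le_mul_self m]) hb
    | false => rw [h2 n hb, ih, mul_zero]

theorem rec_tendsto {c : ℕ → Bool} {s p q u v : ℕ → ℝ} (R : Rec c s p q u v) :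
    Tendsto s atTop (𝓝 0) ∧ Tendsto p atTop (𝓝 0) ∧ Tendsto q atTop (𝓝 0) ∧
      Tendsto u atTop (𝓝 0) ∧ Tendsto v atTop (𝓝 0) := by
  have hs := s_tendsto R
  -- `p` vanishes eventually
  obtain ⟨m, hm⟩ : ∃ m, ∀ n, m ≤ n → p n = 0 := by
    by_cases hex : ∃ m, 2 ≤ m ∧ bbar m = true ∧ c m = true
    · obtain ⟨m, hm2, hb, hc⟩ := hex
      have hz : ∀ n, m + 1 ≤ n → s n = 0 := by
        intro n hn
        induction n, hn using Nat.le_induction with
        | base => exact (R.beta1 m hb hc).1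
        | succ n hn ih =>
          cases hb' : bbar n with
          | false => rw [(R.tau n hb').1, ih]
          | true =>
            cases hc' : c n with
            | true => exact (R.beta1 n hb' hc').1
            | false => rw [(R.beta0 n hb' hc').1, ih, v_sq R (by omega) hb']; simp
      refine ⟨(m + 1) * (m + 1) + 1, eventually_zero (κ := 2) ?_ ?_⟩
      · intro n hn hb'
        cases hc' : c n with
        | true => rw [(R.beta1 n hb' hc').2, hz n hn, v_sq R (by omega) hb']; simp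
        | false => exact (R.beta0 n hb' hc').2
      · intro n hb'
        exact (R.tau n hb').2.1
    · push Not at hex
      refine ⟨2 * 2 + 1, eventually_zero (κ := 2) ?_ ?_⟩
      · intro n hn hb'
        have hc' : c n = false := by
          have := hex n hn hb'
          simpa using this
        exact (R.beta0 n hb' hc').2
      · intro n hb'
        exact (R.tau n hb').2.1
  have hu : ∀ n, m * m + 1 ≤ n → u n = 0 := by
    refine eventually_zero (κ := 1) ?_ ?_
    · intro n hn hb'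
      rw [(R.beta n hb').2.1, hm n hn]
    · intro n hb'
      rw [(R.tau n hb').2.2.2.1, one_mul]
  have ev : ∀ {f : ℕ → ℝ} (N : ℕ), (∀ n, N ≤ n → f n = 0) → Tendsto f atTop (𝓝 0) := by
    intro f N h
    exact (tendsto_congr' (eventually_atTop.2 ⟨N, h⟩)).2 tendsto_const_nhds
  refine ⟨hs, ev m hm, ev (m + 1) ?_, ev _ hu, ev (m * m + 3) ?_⟩
  · intro n hn
    obtain ⟨k, rfl⟩ : ∃ k, n = k + 1 := ⟨n - 1, by omega⟩
    rw [inv1 R k, hm (k + 1) (by omega), mul_zero]
  · intro n hn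
    obtain ⟨k, rfl⟩ : ∃ k, n = k + 2 := ⟨n - 2, by omega⟩
    rw [inv2 R k, hu (k + 2) (by omega), mul_zero]

theorem P_tendsto (c : ℕ → Bool) : Tendsto (P c bbar) atTop (𝓝 0) := by
  refine tendsto_pi_nhds.2 fun i => tendsto_pi_nhds.2 fun j => ?_
  have hcol : ∀ n, (P c bbar (n + 1)).col j = Mx (c n) (bbar n) *ᵥ (P c bbar n).col j := by
    intro n
    ext k
    rfl
  have hvec : ∀ n, (P c bbar n).col j = ![P c bbar n 0 j, P c bbar n 1 j, P c bbar n 2 j,
      P c bbar n 3 j, P c bbar n 4 j] := by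
    intro n
    ext k; fin_cases k <;> rfl
  have R : Rec c (fun n => P c bbar n 0 j) (fun n => P c bbar n 1 j) (fun n => P c bbar n 2 j)
      (fun n => P c bbar n 3 j) (fun n => P c bbar n 4 j) := by
    constructor
    · intro n hb
      have h := hcol n
      rw [hvec n, hvec (n + 1), hb, Mx_tau] at h
      exact ⟨congrFun h 0, congrFun h 1, congrFun h 2, congrFun h 3, congrFun h 4⟩
    · intro n hb
      have h := hcol n
      cases hc : c n with
      | false =>
        rw [hvec n, hvec (n + 1), hb, hc, Mx_beta_false] at h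
        exact ⟨congrFun h 2, congrFun h 3, congrFun h 4⟩
      | true =>
        rw [hvec n, hvec (n + 1), hb, hc, Mx_beta_true] at h
        exact ⟨congrFun h 2, congrFun h 3, congrFun h 4⟩
    · intro n hb hc
      have h := hcol n
      rw [hvec n, hvec (n + 1), hb, hc, Mx_beta_false] at h
      exact ⟨congrFun h 0, congrFun h 1⟩
    · intro n hb hc
      have h := hcol n
      rw [hvec n, hvec (n + 1), hb, hc, Mx_beta_true] at h
      exact ⟨congrFun h 0, congrFun h 1⟩
  obtain ⟨h0, h1, h2, h3, h4⟩ := rec_tendsto R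
  fin_cases i
  · exact h0
  · exact h1
  · exact h2
  · exact h3
  · exact h4

/-- **Answer to Q1 (negative).** There are finite sets `𝒜` of `5 × 10` matrices and `ℬ` of
`10 × 5` matrices (two matrices each) such that the products are path-independent stabilizable,
while for every sequence `B` in `ℬ` and every `n` some sequence `A` in `𝒜` has
`‖A_n B_n ⋯ A_1 B_1‖ ≥ 1`; in particular no sequence in `ℬ` stabilizes with a uniform geometric
rate. -/
theorem result : ∃ (N M : ℕ) (_ : 1 ≤ N) (_ : 1 ≤ M) (𝒜 : Set (Matrix (Fin N) (Fin M) ℝ))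
    (ℬ : Set (Matrix (Fin M) (Fin N) ℝ)), 𝒜.Finite ∧ ℬ.Finite ∧
    PathIndependentlyStabilizable 𝒜 ℬ ∧
    (∀ B : ℕ → Matrix (Fin M) (Fin N) ℝ, (∀ n, B n ∈ ℬ) → ∀ n : ℕ,
      ∃ A : ℕ → Matrix (Fin N) (Fin M) ℝ, (∀ n, A n ∈ 𝒜) ∧ 1 ≤ ‖prodSeq A B n‖) ∧
    ¬ UniformlyExponentiallyStabilizable 𝒜 ℬ := by
  have low : ∀ B : ℕ → Matrix (Fin 10) (Fin 5) ℝ, (∀ n, B n ∈ Set.range BB) → ∀ n : ℕ,
      ∃ A : ℕ → Matrix (Fin 5) (Fin 10) ℝ, (∀ n, A n ∈ Set.range AA) ∧
        1 ≤ ‖prodSeq A B n‖ := by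
    intro B hB n
    choose b hb using hB
    obtain ⟨c, hc⟩ := norm_lower b n
    refine ⟨fun k => AA (c k), fun k => ⟨c k, rfl⟩, ?_⟩
    have : B = fun k => BB (b k) := by ext1 k; exact (hb k).symm
    rw [this, prodSeq_eq]
    exact hc
  refine ⟨5, 10, by norm_num, by norm_num, Set.range AA, Set.range BB, Set.finite_range _,
    Set.finite_range _, ⟨fun n => BB (bbar n), fun n => ⟨bbar n, rfl⟩, ?_⟩, low, ?_⟩
  · intro A hA
    choose c hc using hA
    have : A = fun k => AA (c k) := by ext1 k; exact (hc k).symm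
    rw [this]
    simp_rw [prodSeq_eq]
    exact (tendsto_zero_iff_norm_tendsto_zero).1 (P_tendsto c)
  · rintro ⟨B, hB, C, hC, r, hr0, hr1, h⟩
    have h1 : Tendsto (fun n : ℕ => C * r ^ n) atTop (𝓝 0) := by
      simpa using (tendsto_pow_atTop_nhds_zero_of_lt_one hr0.le hr1).const_mul C
    obtain ⟨n, hn⟩ := ((h1.eventually (gt_mem_nhds (by norm_num : (0 : ℝ) < 1))).and
      (eventually_ge_atTop 1)).exists
    obtain ⟨A, hA, h2⟩ := low B hB n
    have := h A hA n hn.2
    linarith [hn.1]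

end Pool.Agent.Results.MP_3f52e1_an.ClockMismatch
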